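import Pool.Agent.Helper24K9.FBX.C

set_option autoImplicit false

/-!
# Conjecture F for almost all quadratic polynomials, ordered by height, up to the height

All three coefficients vary: `0 < a ≤ H`, `|b| ≤ H`, `|c| ≤ H`. For every `A` and `ε > 0` there is a `B` such that for
all large `H` all but `(log H)^(-A)` of these triples, if admissible, satisfy Conjecture F of Hardy and Littlewood in
the range `H^ε ≤ v ≤ H / (log H)^B`: the products which define `C(a, b, c)` converge to `C > 0`, and for all `u < v`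

`#{u < t ≤ v : f(t) prime} = 2 C ∑_{u < t ≤ v} 1 / log f(t) + O(C v / (log H)^A)`, `f(t) = a t² + b t + c`,

simultaneously for all such `u` and `v`. In particular some value `f(t)` with `1 ≤ t ≤ H^ε` is prime. The values
`f(t)` are as large as `H^(3 - o(1))`, the number of the polynomials is about `H³`.

Proof: the formula of Bateman and Horn with the product over the primes `p ≤ (log H)^E` (`TH892/FullBox`,
`H300R2/FB`), for almost all triples, and the comparison of this product with the infinite product `C(a, b, c)` for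
almost all triples (`TH892/CF1`, `CF2`, `CF3`).
-/

namespace Pool.Agent.Results.MP_a17b09_nt.AlmostAllByHeight

open Finset Filter Topology

/-- The polynomial. -/
def f (a b c : ℤ) (t : ℕ) : ℤ := a * (t : ℤ) ^ 2 + b * (t : ℤ) + c

/-- The triple `(a, b, c)` is admissible. -/
def Admissible (a b c : ℤ) : Prop :=
  0 < a ∧ Int.gcd (Int.gcd a b : ℤ) c = 1 ∧ ¬ (Even (a + b) ∧ Even c) ∧ ¬ IsSquare (b ^ 2 - 4 * a * c)

/-- The products which define `C(a, b, c)`, over the primes `p ≤ z` (`jacobiSym Δ p` is the Legendre symbol). -/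
noncomputable def partialC (a b c : ℤ) (z : ℕ) : ℝ :=
  (if Odd (a + b) then 1 / 2 else 1) *
    (∏ p ∈ (Icc 3 z).filter (fun p : ℕ => p.Prime ∧ (p : ℤ) ∣ a ∧ (p : ℤ) ∣ b), (p : ℝ) / (p - 1)) *
    ∏ p ∈ (Icc 3 z).filter (fun p : ℕ => p.Prime ∧ ¬ (p : ℤ) ∣ a),
      (1 - (jacobiSym (b ^ 2 - 4 * a * c) p : ℝ) / (p - 1))

/-- The triples of height at most `H` with `a > 0`. -/
noncomputable def triples (H : ℕ) : Finset (ℤ × ℤ × ℤ) :=
  Icc (1 : ℤ) H ×ˢ (Icc (-(H : ℤ)) H ×ˢ Icc (-(H : ℤ)) H)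

/-- The number of the `t`, `u < t ≤ v`, for which `f(t)` is a prime. -/
noncomputable def count (a b c : ℤ) (u v : ℕ) : ℕ := ((Ioc u v).filter (fun t : ℕ => (f a b c t).toNat.Prime)).card

/-- The sum of `1 / log f(t)` over the `t`, `u < t ≤ v`, with `f(t) ≥ 2`. -/
noncomputable def logSum (a b c : ℤ) (u v : ℕ) : ℝ :=
  ∑ t ∈ (Ioc u v).filter (fun t : ℕ => 2 ≤ f a b c t), 1 / Real.log ((f a b c t : ℤ) : ℝ)

lemma adm {a b c : ℤ} (h : Admissible a b c) : Pool.Agent.W468.ConjF.Admissible a b c := by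
  obtain ⟨h1, h2, h3, h4⟩ := h
  refine ⟨h1, fun d hda hdb hdc => ?_, fun h => h3 ⟨even_iff_two_dvd.2 h.1, even_iff_two_dvd.2 h.2⟩, h4⟩
  have h5 : d ∣ (Int.gcd (Int.gcd a b : ℤ) c : ℤ) := Int.dvd_coe_gcd (Int.dvd_coe_gcd hda hdb) hdc
  rw [h2] at h5
  exact isUnit_of_dvd_one (by exact_mod_cast h5)

lemma partialC_eq (a b c : ℤ) (z : ℕ) : partialC a b c z = Pool.Agent.W468.ConjF.CF a b c z := by
  unfold partialC Pool.Agent.W468.ConjF.CF
  have e1 : (if Odd (a + b) then (1 / 2 : ℝ) else 1) = if (2 : ℤ) ∣ a + b then 1 else 1 / 2 := by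
    by_cases h : Odd (a + b)
    · rw [if_pos h, if_neg]
      intro h2
      exact (Int.not_even_iff_odd.2 h) (even_iff_two_dvd.2 h2)
    · rw [if_neg h, if_pos]
      exact even_iff_two_dvd.1 (Int.not_odd_iff_even.1 h)
  have e2 : (Icc 3 z).filter (fun p : ℕ => p.Prime ∧ (p : ℤ) ∣ a ∧ (p : ℤ) ∣ b) =
      (range (z + 1)).filter (fun p : ℕ => p.Prime ∧ 3 ≤ p ∧ (p : ℤ) ∣ a ∧ (p : ℤ) ∣ b) := by
    ext p
    simp only [mem_filter, mem_Icc, mem_range]
    constructor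
    · rintro ⟨⟨h1, h2⟩, h3, h4, h5⟩; exact ⟨by omega, h3, h1, h4, h5⟩
    · rintro ⟨h1, h2, h3, h4, h5⟩; exact ⟨⟨h3, by omega⟩, h2, h4, h5⟩
  have e3 : (Icc 3 z).filter (fun p : ℕ => p.Prime ∧ ¬ (p : ℤ) ∣ a) =
      (range (z + 1)).filter (fun p : ℕ => p.Prime ∧ 3 ≤ p ∧ ¬ (p : ℤ) ∣ a) := by
    ext p
    simp only [mem_filter, mem_Icc, mem_range]
    constructor
    · rintro ⟨⟨h1, h2⟩, h3, h4⟩; exact ⟨by omega, h3, h1, h4⟩
    · rintro ⟨h1, h2, h3, h4⟩; exact ⟨⟨h3, by omega⟩, h2, h4⟩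
  rw [e1, e2, e3]

/-- **Conjecture F for almost all quadratic polynomials, up to the height.** For every `A` and `ε > 0` there are `B` and
`H₀` such that for all `H ≥ H₀` there is a set `Bad` of at most `#(triples H) / (log H)^A` triples with the following
property. Let `0 < a ≤ H`, `|b| ≤ H`, `|c| ≤ H`, let `(a, b, c)` be admissible and not in `Bad`, and let
`f(t) = a t² + b t + c`. Then the products which define `C(a, b, c)` converge to a number `C > 0`, a value `f(t)` with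
`1 ≤ t ≤ H^ε` is prime, and for all `u < v` with `H^ε ≤ v` and `v (log H)^B ≤ H` the number of the `t` with
`u < t ≤ v` for which `f(t)` is prime differs from `2 C ∑_{u < t ≤ v} 1 / log f(t)` by at most `C v / (log H)^A`. -/
theorem result (A : ℕ) (ε : ℝ) (hε : 0 < ε) : ∃ B H₀ : ℕ, ∀ H : ℕ, H₀ ≤ H →
    ∃ Bad ⊆ triples H, (Bad.card : ℝ) ≤ ((triples H).card : ℝ) / Real.log H ^ A ∧
      ∀ a b c : ℤ, (a, b, c) ∈ triples H → (a, b, c) ∉ Bad → Admissible a b c →
        ∃ C : ℝ, 0 < C ∧ Tendsto (partialC a b c) atTop (𝓝 C) ∧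
          (∃ t : ℕ, 1 ≤ t ∧ (t : ℝ) ≤ (H : ℝ) ^ ε ∧ (f a b c t).toNat.Prime) ∧
          ∀ u v : ℕ, u < v → (H : ℝ) ^ ε ≤ v → (v : ℝ) * Real.log H ^ B ≤ H →
            |(count a b c u v : ℝ) - 2 * C * logSum a b c u v| ≤ C * v / Real.log H ^ A := by
  obtain ⟨B, H₀, h0⟩ := Pool.Agent.Helper24K9.FBX.windows A ε hε
  refine ⟨B, H₀, fun H hH => ?_⟩
  obtain ⟨Bad, h1, h2, h3⟩ := h0 H hH
  refine ⟨Bad, h1, h2, fun a b c ht htB hadm => ?_⟩
  obtain ⟨C, hC0, hC, ⟨k, hk1, hk2, hk3⟩, hw⟩ := h3 (a, b, c) ht htB (adm hadm)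
  have ef : ∀ t : ℕ, (Pool.Agent.TH892.pol (Pool.Agent.Helper24K9.FBX.cv (a, b, c))).eval (t : ℤ) = f a b c t :=
    fun t => Pool.Agent.Helper24K9.FBX.cv_eval (a, b, c) t
  refine ⟨C, hC0, ?_, ⟨k, hk1, hk2, by rw [← ef]; exact hk3⟩, fun u v huv hv1 hv2 => ?_⟩
  · have e : partialC a b c = fun z => Pool.Agent.W468.ConjF.CF a b c z := by
      funext z
      exact partialC_eq a b c z
    rw [e]
    exact hC
  · have h4 := hw u v huv hv1 hv2
    unfold Pool.Agent.Helper24K9.FBX.pw Pool.Agent.Helper24K9.FBX.lw at h4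
    simp only [ef] at h4
    exact h4

end Pool.Agent.Results.MP_a17b09_nt.AlmostAllByHeight
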