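import Pool.Agent.Helper24K9.EL.Fu
import Pool.Agent.Helper24K9.EL.PL

set_option autoImplicit false

/-!
# Conjecture F on every line of quadratic polynomials, as a lower bound, for a positive proportion

Let `g(t) = α t² + β t + γ` and `h(t) = a t² + b t + c` be fixed, with `α > 0`, or `α = 0`, `β > 0`, `a > 0`, with
non-zero resultant, and let no prime divide all the numbers `k g(t) + h(t)`. Then for a positive proportion of the
`k ≤ K` the polynomial `f = h + k g` is admissible, `C(f) > 0` exists, and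

`#{u < t ≤ x : f(t) prime} ≥ θ · 2 C(f) · ∑_{u < t ≤ x} 1 / log f(t)`

for every fixed `θ < 1`, uniformly in the range `log K ≤ x`, `g(x) ≤ K^(1/2 - ε)`. If `g` is linear then even in the
range `log K ≤ x`, `g(x) (log K)^B ≤ K`.

Proof: the theorems of Bombieri and Vinogradov (`W414R2`) and, for a quadratic `g`, of Baier and Zhao for sparse
moduli (`H373R2/T4`) give the first moment of `#{t ≤ x : f(t) prime}` over `k ≤ K`. The Selberg sieve in two
dimensions (`W218/HF`), the mean value of the square of `g/φ(g)` and of the singular series of pairs give a second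
moment of the right order, also on the subsets of the `k` with `C(f)` small. A comparison of the first moment with the
mean value of `C(f)` along the line, from above (`W468`, `TH892`), gives the constant.
-/

namespace Pool.Agent.Results.MP_a17b09_nt.EveryLine

open Finset Filter Topology

/-- The polynomial. -/
def f (a b c : ℤ) (t : ℕ) : ℤ := a * (t : ℤ) ^ 2 + b * (t : ℤ) + c

/-- The triple `(a, b, c)` is admissible. -/
def Admissible (a b c : ℤ) : Prop :=
  0 < a ∧ Int.gcd (Int.gcd a b : ℤ) c = 1 ∧ ¬ (Even (a + b) ∧ Even c) ∧ ¬ IsSquare (b ^ 2 - 4 * a * c)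

/-- The products which define `C(a, b, c)`, over the primes `p ≤ z` (`jacobiSym Δ p` is the Legendre symbol). -/
noncomputable def partialC (a b c : ℤ) (z : ℕ) : ℝ :=
  (if Odd (a + b) then 1 / 2 else 1) *
    (∏ p ∈ (Icc 3 z).filter (fun p : ℕ => p.Prime ∧ (p : ℤ) ∣ a ∧ (p : ℤ) ∣ b), (p : ℝ) / (p - 1)) *
    ∏ p ∈ (Icc 3 z).filter (fun p : ℕ => p.Prime ∧ ¬ (p : ℤ) ∣ a),
      (1 - (jacobiSym (b ^ 2 - 4 * a * c) p : ℝ) / (p - 1))

/-- The number of the `t`, `u < t ≤ v`, for which `f(t)` is a prime. -/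
noncomputable def count (a b c : ℤ) (u v : ℕ) : ℕ := ((Ioc u v).filter (fun t : ℕ => (f a b c t).toNat.Prime)).card

/-- The sum of `1 / log f(t)` over the `t`, `u < t ≤ v`, with `f(t) ≥ 2`. -/
noncomputable def logSum (a b c : ℤ) (u v : ℕ) : ℝ :=
  ∑ t ∈ (Ioc u v).filter (fun t : ℕ => 2 ≤ f a b c t), 1 / Real.log ((f a b c t : ℤ) : ℝ)

lemma adm {a b c : ℤ} (h : Pool.Agent.W468.ConjF.Admissible a b c) : Admissible a b c := by
  obtain ⟨h1, h2, h3, h4⟩ := h
  refine ⟨h1, ?_, fun h => h3 ⟨even_iff_two_dvd.1 h.1, even_iff_two_dvd.1 h.2⟩, h4⟩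
  have h5 : IsUnit ((Int.gcd (Int.gcd a b : ℤ) c : ℕ) : ℤ) := by
    apply h2
    · exact (Int.gcd_dvd_left _ _).trans (Int.gcd_dvd_left _ _)
    · exact (Int.gcd_dvd_left _ _).trans (Int.gcd_dvd_right _ _)
    · exact Int.gcd_dvd_right _ _
  rw [Int.ofNat_isUnit, Nat.isUnit_iff] at h5
  exact h5

lemma partialC_eq (a b c : ℤ) (z : ℕ) : partialC a b c z = Pool.Agent.W468.ConjF.CF a b c z := by
  unfold partialC Pool.Agent.W468.ConjF.CF
  have e1 : (if Odd (a + b) then (1 / 2 : ℝ) else 1) = if (2 : ℤ) ∣ a + b then 1 else 1 / 2 := by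
    by_cases h : Odd (a + b)
    · rw [if_pos h, if_neg]
      intro h2
      exact (Int.not_even_iff_odd.2 h) (even_iff_two_dvd.2 h2)
    · rw [if_neg h, if_pos]
      exact even_iff_two_dvd.1 (Int.not_odd_iff_even.1 h)
  have e2 : (Icc 3 z).filter (fun p : ℕ => p.Prime ∧ (p : ℤ) ∣ a ∧ (p : ℤ) ∣ b) =
      (range (z + 1)).filter (fun p : ℕ => p.Prime ∧ 3 ≤ p ∧ (p : ℤ) ∣ a ∧ (p : ℤ) ∣ b) := by
    ext p
    simp only [mem_filter, mem_Icc, mem_range]
    constructor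
    · rintro ⟨⟨h1, h2⟩, h3, h4, h5⟩; exact ⟨by omega, h3, h1, h4, h5⟩
    · rintro ⟨h1, h2, h3, h4, h5⟩; exact ⟨⟨h3, by omega⟩, h2, h4, h5⟩
  have e3 : (Icc 3 z).filter (fun p : ℕ => p.Prime ∧ ¬ (p : ℤ) ∣ a) =
      (range (z + 1)).filter (fun p : ℕ => p.Prime ∧ 3 ≤ p ∧ ¬ (p : ℤ) ∣ a) := by
    ext p
    simp only [mem_filter, mem_Icc, mem_range]
    constructor
    · rintro ⟨⟨h1, h2⟩, h3, h4⟩; exact ⟨by omega, h3, h1, h4⟩
    · rintro ⟨h1, h2, h3, h4⟩; exact ⟨⟨h3, by omega⟩, h2, h4⟩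
  rw [e1, e2, e3]

/-- **Conjecture F on a line, lower bound for a positive proportion.** Let `g(t) = α t² + β t + γ` and
`h(t) = a t² + b t + c`, where `α > 0`, or `α = 0`, `β > 0` and `a > 0`. Let the resultant of `g` and `h` be non-zero
and let no prime divide `k g(t) + h(t)` for all integers `k`, `t`. Then there are `u` and `B` such that for all
`θ < 1` and `ε > 0` there are `κ > 0` and `K₀` with the following property for all `K ≥ K₀` and all `x ≥ log K` with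
`g(x) ≤ K^(1/2 - ε)`, and if `α = 0` for all `x ≥ log K` with `g(x) (log K)^B ≤ K`. For at least `κ K` of the `k ≤ K`
the polynomial `f = h + k g` is admissible, the products which define `C(f)` converge to a number `C(f) > 0`, and the
number of the `t`, `u < t ≤ x`, for which `f(t)` is prime is at least `θ · 2 C(f) ∑_{u < t ≤ x} 1 / log f(t)` and at
least `κ x / log K`. -/
theorem result (α β γ a b c : ℤ) (hlead : 0 < α ∨ (α = 0 ∧ 0 < β ∧ 0 < a))
    (hres : (α * c - γ * a) ^ 2 ≠ (α * b - β * a) * (β * c - γ * b))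
    (hloc : ∀ p : ℕ, p.Prime → ∃ k t : ℤ, ¬ (p : ℤ) ∣ k * (α * t ^ 2 + β * t + γ) + (a * t ^ 2 + b * t + c)) :
    ∃ u B : ℕ, ∀ θ ε : ℝ, θ < 1 → 0 < ε → ∃ κ : ℝ, 0 < κ ∧ ∃ K₀ : ℕ, ∀ K x : ℕ, K₀ ≤ K → Real.log K ≤ x →
      ((f α β γ x : ℝ) ≤ (K : ℝ) ^ (1 / 2 - ε) ∨ (α = 0 ∧ (f α β γ x : ℝ) * Real.log K ^ B ≤ K)) →
      ∃ s ⊆ Icc 1 K, κ * K ≤ s.card ∧ ∀ k ∈ s,
        Admissible (a + α * k) (b + β * k) (c + γ * k) ∧
        ∃ C : ℝ, 0 < C ∧ Tendsto (partialC (a + α * k) (b + β * k) (c + γ * k)) atTop (𝓝 C) ∧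
          θ * (2 * C * logSum (a + α * k) (b + β * k) (c + γ * k) u x) ≤
            count (a + α * k) (b + β * k) (c + γ * k) u x ∧
          κ * x / Real.log K ≤ count (a + α * k) (b + β * k) (c + γ * k) u x := by
  classical
  let l : Pool.Agent.Helper24K9.EL.Ln := ⟨α, β, γ, a, b, c, hlead, hres⟩
  have hadm : l.Adm := hloc
  have hv : ∀ k t : ℕ, (k : ℤ) * l.G t + l.H t = f (a + α * k) (b + β * k) (c + γ * k) t := by
    intro k t
    show (k : ℤ) * (α * (t : ℤ) ^ 2 + β * t + γ) + (a * (t : ℤ) ^ 2 + b * t + c) = _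
    unfold f
    ring
  have hgf : ∀ x : ℕ, l.t0 ≤ x → ((l.g x : ℕ) : ℝ) = (f α β γ x : ℝ) := by
    intro x hx
    have h1 := l.g_cast hx
    have h2 : l.G x = f α β γ x := rfl
    rw [h2] at h1
    exact_mod_cast h1
  -- the conclusion for a range
  have key : ∀ (Rg : ℕ → ℕ → Prop), l.Rng Rg → ∀ θ : ℝ, θ < 1 → ∃ κ : ℝ, 0 < κ ∧ ∃ K₀ : ℕ, ∀ K x : ℕ, K₀ ≤ K →
      Real.log K ≤ x → Rg K x →
      ∃ s ⊆ Icc 1 K, κ * K ≤ s.card ∧ ∀ k ∈ s,
        Admissible (a + α * k) (b + β * k) (c + γ * k) ∧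
        ∃ C : ℝ, 0 < C ∧ Tendsto (partialC (a + α * k) (b + β * k) (c + γ * k)) atTop (𝓝 C) ∧
          θ * (2 * C * logSum (a + α * k) (b + β * k) (c + γ * k) l.t0 x) ≤
            count (a + α * k) (b + β * k) (c + γ * k) l.t0 x ∧
          κ * x / Real.log K ≤ count (a + α * k) (b + β * k) (c + γ * k) l.t0 x := by
    intro Rg hRg θ hθ
    obtain ⟨κ, hκ, K₀, h⟩ := l.full hadm Rg hRg θ hθ
    refine ⟨κ, hκ, K₀, fun K x hK hx hR => ?_⟩
    have h1 := h K hK x hx hR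
    refine ⟨_, filter_subset _ _, h1, fun k hk => ?_⟩
    obtain ⟨h2, C, hC, h3, h4, h5⟩ := (mem_filter.1 hk).2
    have eN : l.NP k x = count (a + α * k) (b + β * k) (c + γ * k) l.t0 x := by
      unfold Pool.Agent.Helper24K9.EL.Ln.NP count
      simp only [hv]
    have eL : l.LS k x = logSum (a + α * k) (b + β * k) (c + γ * k) l.t0 x := by
      unfold Pool.Agent.Helper24K9.EL.Ln.LS logSum
      simp only [hv]
    rw [eN, eL] at h4
    rw [eN] at h5
    refine ⟨adm h2, C, hC, ?_, ?_, h5⟩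
    · have e : partialC (a + α * k) (b + β * k) (c + γ * k) =
          fun z => Pool.Agent.W468.ConjF.CF (a + α * k) (b + β * k) (c + γ * k) z := by
        funext z
        exact partialC_eq _ _ _ z
      rw [e]
      exact h3
    · rw [← mul_assoc]
      exact h4
  have hB : ∃ B : ℕ, α = 0 → l.Rng (fun K x => (l.g x : ℝ) * Real.log K ^ B ≤ K) := by
    by_cases hα : α = 0
    · obtain ⟨B, hB⟩ := l.rng_lin hα
      exact ⟨B, fun _ => hB⟩
    · exact ⟨0, fun h => absurd h hα⟩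
  obtain ⟨B, hB⟩ := hB
  refine ⟨l.t0, B, fun θ ε hθ hε => ?_⟩
  obtain ⟨κ₁, hκ₁, K₁, h1⟩ := key _ (l.rng_quad ε hε) θ hθ
  -- for large `K` and `x ≥ log K` we have `x ≥ t0`
  have hlarge : ∀ K x : ℕ, ⌈Real.exp l.t0⌉₊ ≤ K → Real.log K ≤ x → l.t0 ≤ x := by
    intro K x hK hx
    have h2 : Real.exp l.t0 ≤ K := (Nat.le_ceil _).trans (by exact_mod_cast hK)
    have h3 : (l.t0 : ℝ) ≤ Real.log K := by
      rw [Real.le_log_iff_exp_le ((Real.exp_pos _).trans_le h2)]
      exact h2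
    exact_mod_cast h3.trans hx
  have weak : ∀ (κ κ' : ℝ) (K x : ℕ), κ ≤ κ' → 1 ≤ K →
      (∃ s ⊆ Icc 1 K, κ' * K ≤ s.card ∧ ∀ k ∈ s,
        Admissible (a + α * k) (b + β * k) (c + γ * k) ∧
        ∃ C : ℝ, 0 < C ∧ Tendsto (partialC (a + α * k) (b + β * k) (c + γ * k)) atTop (𝓝 C) ∧
          θ * (2 * C * logSum (a + α * k) (b + β * k) (c + γ * k) l.t0 x) ≤
            count (a + α * k) (b + β * k) (c + γ * k) l.t0 x ∧
          κ' * x / Real.log K ≤ count (a + α * k) (b + β * k) (c + γ * k) l.t0 x) →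
      (∃ s ⊆ Icc 1 K, κ * K ≤ s.card ∧ ∀ k ∈ s,
        Admissible (a + α * k) (b + β * k) (c + γ * k) ∧
        ∃ C : ℝ, 0 < C ∧ Tendsto (partialC (a + α * k) (b + β * k) (c + γ * k)) atTop (𝓝 C) ∧
          θ * (2 * C * logSum (a + α * k) (b + β * k) (c + γ * k) l.t0 x) ≤
            count (a + α * k) (b + β * k) (c + γ * k) l.t0 x ∧
          κ * x / Real.log K ≤ count (a + α * k) (b + β * k) (c + γ * k) l.t0 x) := by
    rintro κ κ' K x hk hK ⟨s, hs, hs1, hs2⟩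
    refine ⟨s, hs, le_trans (by gcongr) hs1, fun k hk' => ?_⟩
    obtain ⟨h2, C, hC, h3, h4, h5⟩ := hs2 k hk'
    refine ⟨h2, C, hC, h3, h4, le_trans ?_ h5⟩
    have : 0 ≤ Real.log K := Real.log_nonneg (by exact_mod_cast hK)
    gcongr
  by_cases hα : α = 0
  · obtain ⟨κ₂, hκ₂, K₂, h2⟩ := key _ (hB hα) θ hθ
    refine ⟨min κ₁ κ₂, lt_min hκ₁ hκ₂, max (max K₁ K₂) (max 1 ⌈Real.exp l.t0⌉₊), fun K x hK hx hR => ?_⟩
    have hK1 : K₁ ≤ K := le_trans (le_max_left _ _) (le_trans (le_max_left _ _) hK)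
    have hK2 : K₂ ≤ K := le_trans (le_max_right _ _) (le_trans (le_max_left _ _) hK)
    have hK3 : 1 ≤ K := le_trans (le_max_left _ _) (le_trans (le_max_right _ _) hK)
    have hK4 : ⌈Real.exp l.t0⌉₊ ≤ K := le_trans (le_max_right _ _) (le_trans (le_max_right _ _) hK)
    have hxt := hlarge K x hK4 hx
    rcases hR with hR | ⟨_, hR⟩
    · refine weak _ κ₁ K x (min_le_left _ _) hK3 (h1 K x hK1 hx ?_)
      rw [hgf x hxt]
      exact hR
    · refine weak _ κ₂ K x (min_le_right _ _) hK3 (h2 K x hK2 hx ?_)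
      rw [hgf x hxt]
      exact hR
  · refine ⟨κ₁, hκ₁, max K₁ ⌈Real.exp l.t0⌉₊, fun K x hK hx hR => ?_⟩
    have hK1 : K₁ ≤ K := le_trans (le_max_left _ _) hK
    have hK4 : ⌈Real.exp l.t0⌉₊ ≤ K := le_trans (le_max_right _ _) hK
    have hxt := hlarge K x hK4 hx
    rcases hR with hR | ⟨h, _⟩
    · refine h1 K x hK1 hx ?_
      rw [hgf x hxt]
      exact hR
    · exact absurd h hα

end Pool.Agent.Results.MP_a17b09_nt.EveryLine
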