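import Pool.Agent.Helper24K9.PL.Sec
import Pool.Agent.Helper44K9.PL.Lin
import Pool.Agent.Helper44K9.PL.All
import Pool.Agent.Helper32K9.PL.Cnt
import Pool.Agent.Helper32K9.PL.Mom
import Pool.Agent.Helper24K9.PT.Most
import Pool.Agent.Helper24K9.PT.Sol
import Pool.Agent.Helper24K9.PT.Ds
import Pool.Agent.Helper24K9.PT.Nl
import Pool.Agent.Helper30K9.PT.Tw
import Pool.Agent.Helper44K9.PT.Full
import Pool.Agent.Helper44K9.PT.Full2
import Pool.Agent.Helper30K9.PT.Nl1

/-!
# Conjecture F for almost all members of every two-parameter linear family of quadratics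

Let `g` and `g'` be two fixed quadratics with non-zero resultant (for instance `t ^ 2 + 1` and `t`, or `t ^ 2` and `1`).
We consider the quadratics `f = h + k g + l g'` with `|k|, |l| ≤ H`, where `h` is any polynomial of degree at most `2`
with coefficients at most `C H`: all two-parameter families with these two directions. For almost all pairs `(k, l)` the
constant `C(f)` exists and the number of the `t ≤ y` for which `f(t)` is a prime (up to sign) is `2 C(f) y / log H` with
an error `ε x / log H`, for all `y ≤ x`, as soon as `x` is a large constant times `log H`, unless `f` has a fixed prime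
divisor. The same holds if `g` and `g'` are independent linear polynomials (`t` and `1`) and the coefficient of `t ^ 2`
in `h` is fixed.

Quadratics are given by their coefficients: `f 0 + f 1 t + f 2 t ^ 2`.
From the starting files: the theorems of Siegel and Walfisz and the prime number theorem in the forms of
`Pool.Agent.H343R2.EH` and `Pool.Agent.H442R2.EHI`, Mertens' theorem (`Pool.Agent.Erdos456`) and the convergence of the
products (`Pool.Agent.W468.ConjF`).
-/

set_option autoImplicit false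

namespace Pool.Agent.Results.MP_a17b09_nt.EveryPlane

open Finset Filter Topology

/-- The value at `t` of the quadratic with the coefficients `f`. -/
def value (f : Fin 3 → ℤ) (t : ℕ) : ℤ := f 0 + f 1 * t + f 2 * t ^ 2

/-- The member `h + k g + l g'` of the family. -/
def member (g g' h : Fin 3 → ℤ) (k l : ℤ) : Fin 3 → ℤ := fun i => h i + k * g i + l * g' i

/-- Either the resultant of `g` and `g'` is not zero, or `g` and `g'` have degree at most `1`, they are linearly
independent, and the coefficient of `t ^ 2` in `h` is the number `a₀`, not zero. -/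
def Allowed (a₀ : ℤ) (g g' h : Fin 3 → ℤ) : Prop :=
  (g 2 * g' 0 - g' 2 * g 0) ^ 2 ≠ (g 2 * g' 1 - g' 2 * g 1) * (g 1 * g' 0 - g' 1 * g 0) ∨
    (g 2 = 0 ∧ g' 2 = 0 ∧ g 1 * g' 0 - g' 1 * g 0 ≠ 0 ∧ h 2 = a₀ ∧ a₀ ≠ 0)

/-- The pairs `(k, l)` with `|k|, |l| ≤ H`. -/
noncomputable def pairs (H : ℕ) : Finset (ℤ × ℤ) := Icc (-(H : ℤ)) H ×ˢ Icc (-(H : ℤ)) H

open Classical in
/-- The number of the elements of `S` with the property `F`. -/
noncomputable def number {α : Type} (S : Finset α) (F : α → Prop) : ℝ := ((S.filter F).card : ℝ)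

/-- The coefficients have no common divisor, and `a + b` and `c` are not both even (`f = a t ^ 2 + b t + c`). -/
def NoFixedDivisor (f : Fin 3 → ℤ) : Prop :=
  Int.gcd (Int.gcd (f 2) (f 1) : ℤ) (f 0) = 1 ∧ ¬ (Even (f 2 + f 1) ∧ Even (f 0))

/-- The products which define the constant `C(f)` of Conjecture F, over the primes `p ≤ z` (`jacobiSym Δ p` is the
Legendre symbol): the number `1 / 2` or `1`, the factors `p / (p - 1)` for the odd `p` which divide `a` and `b`, and
the factors `1 - (Δ / p) / (p - 1)` for the odd `p` which do not divide `a`. -/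
noncomputable def partialC (f : Fin 3 → ℤ) (z : ℕ) : ℝ :=
  (if Odd (f 2 + f 1) then 1 / 2 else 1) *
    (∏ p ∈ (Icc 3 z).filter (fun p : ℕ => p.Prime ∧ (p : ℤ) ∣ f 2 ∧ (p : ℤ) ∣ f 1), (p : ℝ) / (p - 1)) *
    ∏ p ∈ (Icc 3 z).filter (fun p : ℕ => p.Prime ∧ ¬ (p : ℤ) ∣ f 2),
      (1 - (jacobiSym (f 1 ^ 2 - 4 * f 2 * f 0) p : ℝ) / (p - 1))

/-- The polynomial `f` has degree `2`, its discriminant is not a square, and if it has no fixed divisor then the
products over `p ≤ z` converge to a number `κ > 0` (the constant `C(f)` of Conjecture F) and for all `y ≤ x` the number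
of the `t` with `1 ≤ t ≤ y` for which `f(t)` is a prime up to the sign, times `log H`, is `2 κ y` up to `ε x`. -/
def Holds (H x : ℕ) (ε : ℝ) (f : Fin 3 → ℤ) : Prop :=
  f 2 ≠ 0 ∧ ¬ IsSquare (f 1 ^ 2 - 4 * f 2 * f 0) ∧ (NoFixedDivisor f →
    ∃ κ : ℝ, 0 < κ ∧ Tendsto (partialC f) atTop (𝓝 κ) ∧
      ∀ y ≤ x, |number (Icc 1 y) (fun t => (value f t).natAbs.Prime) * Real.log H - 2 * κ * y| ≤ ε * x)

lemma partialC_eq (f : Fin 3 → ℤ) (z : ℕ) : partialC f z = Pool.Agent.W468.ConjF.CF (f 2) (f 1) (f 0) z := by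
  unfold partialC Pool.Agent.W468.ConjF.CF
  have e1 : (if Odd (f 2 + f 1) then (1 / 2 : ℝ) else 1) = if (2 : ℤ) ∣ f 2 + f 1 then 1 else 1 / 2 := by
    by_cases h : Odd (f 2 + f 1)
    · rw [if_pos h, if_neg]
      intro h2
      exact (Int.not_even_iff_odd.2 h) (even_iff_two_dvd.2 h2)
    · rw [if_neg h, if_pos]
      exact even_iff_two_dvd.1 (Int.not_odd_iff_even.1 h)
  have e2 : (Icc 3 z).filter (fun p : ℕ => p.Prime ∧ (p : ℤ) ∣ f 2 ∧ (p : ℤ) ∣ f 1) =
      (range (z + 1)).filter (fun p : ℕ => p.Prime ∧ 3 ≤ p ∧ (p : ℤ) ∣ f 2 ∧ (p : ℤ) ∣ f 1) := by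
    ext p
    simp only [mem_filter, mem_Icc, mem_range]
    constructor
    · rintro ⟨⟨h1, h2⟩, h3, h4, h5⟩; exact ⟨by omega, h3, h1, h4, h5⟩
    · rintro ⟨h1, h2, h3, h4, h5⟩; exact ⟨⟨h3, by omega⟩, h2, h4, h5⟩
  have e3 : (Icc 3 z).filter (fun p : ℕ => p.Prime ∧ ¬ (p : ℤ) ∣ f 2) =
      (range (z + 1)).filter (fun p : ℕ => p.Prime ∧ 3 ≤ p ∧ ¬ (p : ℤ) ∣ f 2) := by
    ext p
    simp only [mem_filter, mem_Icc, mem_range]
    constructor
    · rintro ⟨⟨h1, h2⟩, h3, h4⟩; exact ⟨by omega, h3, h1, h4⟩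
    · rintro ⟨h1, h2, h3, h4⟩; exact ⟨⟨h3, by omega⟩, h2, h4⟩
  rw [e1, e2, e3]

/-- the vector of a pair -/
def vec (q : ℤ × ℤ) : Fin (1 + 1) → ℤ := ![q.1, q.2]

lemma mem_eq (g g' h : Fin 3 → ℤ) (q : ℤ × ℤ) :
    Pool.Agent.Helper24K9.PL.mem g g' h (vec q) = member g g' h q.1 q.2 := by
  funext i
  unfold Pool.Agent.Helper24K9.PL.mem member vec
  simp

lemma pv_eq (f : Fin 3 → ℤ) (t : ℕ) : Pool.Agent.Helper82K9.PR.pv f t = value f t := by
  unfold Pool.Agent.Helper82K9.PR.pv value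
  rw [Fin.sum_univ_three]
  simp

lemma sum_om (H y : ℕ) (f : Fin 3 → ℤ) :
    ∑ n ∈ Icc 1 y, Pool.Agent.Helper82K9.PR.om (Real.log H) (Pool.Agent.Helper82K9.PR.pv f n) =
      number (Icc 1 y) (fun t => (value f t).natAbs.Prime) * Real.log H := by
  classical
  have e1 : ∀ n, Pool.Agent.Helper82K9.PR.om (Real.log H) (Pool.Agent.Helper82K9.PR.pv f n) =
      if (value f n).natAbs.Prime then Real.log H else 0 := by
    intro n
    rw [pv_eq]
    unfold Pool.Agent.Helper82K9.PR.om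
    rfl
  rw [sum_congr rfl (fun n _ => e1 n), ← sum_filter, sum_const, nsmul_eq_mul]
  unfold number
  congr 3
  ext n
  simp only [mem_filter]

/-- passing from the vectors to the pairs -/
lemma number_le (H : ℕ) (F : ℤ × ℤ → Prop) (G : (Fin (1 + 1) → ℤ) → Prop) [DecidablePred G]
    (h : ∀ q ∈ pairs H, F q → G (vec q)) :
    number (pairs H) F ≤ (((Pool.Agent.Helper82K9.PR.Bx 1 H).filter G).card : ℝ) := by
  classical
  unfold number
  apply Nat.cast_le.2
  apply card_le_card_of_injOn vec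
  · intro q hq
    rw [mem_coe, mem_filter] at hq
    rw [mem_coe, mem_filter]
    refine ⟨?_, h q hq.1 hq.2⟩
    have hp := hq.1
    unfold pairs at hp
    rw [mem_product] at hp
    unfold Pool.Agent.Helper82K9.PR.Bx
    rw [Fintype.mem_piFinset]
    intro i
    unfold vec
    fin_cases i
    · simpa using hp.1
    · simpa using hp.2
  · intro q _ q' _ hqq
    have h0 := congrFun hqq 0
    have h1 := congrFun hqq 1
    unfold vec at h0 h1
    simp only [Matrix.cons_val_zero, Matrix.cons_val_one] at h0 h1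
    exact Prod.ext h0 h1

open Pool.Agent.Helper24K9.PL Pool.Agent.Helper24K9.PT in
/-- the conclusion from `S_FULLc` for one pair of directions -/
lemma of_full (g g' : Fin 3 → ℤ) (Q : (Fin 3 → ℤ) → Prop) (hF : S_FULLc g g' Q) (B : ℕ) (C ε : ℝ) (hε : 0 < ε) :
    ∃ A : ℕ, ∀ H : ℕ, A ≤ H → ∀ x : ℕ, A * Real.log H ≤ x → (x : ℝ) ≤ Real.log H ^ B →
    ∀ h : Fin 3 → ℤ, (∀ i, |(h i : ℝ)| ≤ C * H) → Q h →
      number (pairs H) (fun q => ¬ Holds H x ε (member g g' h q.1 q.2)) ≤ ε * (2 * H + 1) ^ 2 := by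
  classical
  obtain ⟨A, _, hA⟩ := hF B C ε hε
  refine ⟨A, fun H hH x hx hxB h hh hQ => ?_⟩
  have k1 := hA H hH x hx hxB h hQ hh
  have hcard : ((Pool.Agent.Helper82K9.PR.Bx 1 H).card : ℝ) = (2 * H + 1) ^ 2 := Pool.Agent.Helper82K9.PR.card_Bx 1 H
  rw [hcard] at k1
  refine le_trans (number_le H _ _ fun q hq h3 => ?_) k1
  intro h4
  apply h3
  rw [mem_eq] at h4
  obtain ⟨h5, h6, h7⟩ := h4
  refine ⟨h5, h6, fun hadm => ?_⟩
  obtain ⟨κ, hκ, hlim, hy⟩ := h7 hadm
  refine ⟨κ, hκ, ?_, fun y hyx => ?_⟩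
  · have e : partialC (member g g' h q.1 q.2) = fun N => Pool.Agent.W468.ConjF.CF (member g g' h q.1 q.2 2)
        (member g g' h q.1 q.2 1) (member g g' h q.1 q.2 0) N := by
      funext N
      exact partialC_eq _ N
    rw [e]
    exact hlim
  · have h8 := hy y hyx
    rwa [sum_om] at h8

/-- exchanging the two directions -/
lemma number_swap (H : ℕ) (F : ℤ × ℤ → Prop) : number (pairs H) F = number (pairs H) (fun q => F q.swap) := by
  classical
  unfold number
  congr 1
  refine card_bij' (fun q _ => q.swap) (fun q _ => q.swap) ?_ ?_ ?_ ?_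
  · intro q hq
    rw [mem_filter] at hq ⊢
    unfold pairs at hq ⊢
    rw [mem_product] at hq ⊢
    exact ⟨⟨hq.1.2, hq.1.1⟩, by simpa using hq.2⟩
  · intro q hq
    rw [mem_filter] at hq ⊢
    unfold pairs at hq ⊢
    rw [mem_product] at hq ⊢
    exact ⟨⟨hq.1.2, hq.1.1⟩, hq.2⟩
  · intro q _
    exact Prod.swap_swap q
  · intro q _
    exact Prod.swap_swap q

/-- Let `g` and `g'` be polynomials of degree at most `2`, let `a₀` and `B` be integers and `C` and `ε > 0` real
numbers. There is `A` such that for all `H ≥ A`, all `x` with `A log H ≤ x ≤ (log H) ^ B` and every polynomial `h` of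
degree at most `2` with coefficients at most `C H` in absolute value, such that
* the resultant of `g` and `g'` is not zero, or
* `g` and `g'` are linearly independent polynomials of degree at most `1`, and `h` has the leading term `a₀ t ^ 2`,
  `a₀ ≠ 0`,

the following holds for all but at most `ε (2 H + 1) ^ 2` of the pairs of integers `k, l` with `|k|, |l| ≤ H`: the
polynomial `f = h + k g + l g'` has degree `2`, its discriminant is not a square, and if it has no fixed divisor then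
the products defining the constant `C(f)` of Conjecture F converge to a number `C(f) > 0` and for all `y ≤ x` the number
of the `t ≤ y` for which `f(t)` is a prime (up to sign), times `log H`, is `2 C(f) y` up to `ε x`. -/
theorem result (g g' : Fin 3 → ℤ) (a₀ : ℤ) (B : ℕ) (C ε : ℝ) (hε : 0 < ε) :
    ∃ A : ℕ, ∀ H : ℕ, A ≤ H → ∀ x : ℕ, A * Real.log H ≤ x → (x : ℝ) ≤ Real.log H ^ B →
    ∀ h : Fin 3 → ℤ, (∀ i, |(h i : ℝ)| ≤ C * H) → Allowed a₀ g g' h →
      number (pairs H) (fun q => ¬ Holds H x ε (member g g' h q.1 q.2)) ≤ ε * (2 * H + 1) ^ 2 := by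
  classical
  have hall : Pool.Agent.Helper24K9.PL.S_ALL := Pool.Agent.Helper44K9.PL.all (Pool.Agent.Helper24K9.PL.sec
    (Pool.Agent.Helper24K9.PL.comb Pool.Agent.Helper32K9.PL.cnt) (Pool.Agent.Helper32K9.PL.mom Pool.Agent.Helper44K9.PL.lin))
  have htw : Pool.Agent.Helper24K9.PT.S_TW := Pool.Agent.Helper30K9.PT.tw
  have hsol : Pool.Agent.Helper24K9.PT.S_SOL := Pool.Agent.Helper24K9.PT.sol htw
  by_cases hres : (g 2 * g' 0 - g' 2 * g 0) ^ 2 ≠ (g 2 * g' 1 - g' 2 * g 1) * (g 1 * g' 0 - g' 1 * g 0)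
  · have hF : Pool.Agent.Helper24K9.PT.S_FULLc g g' (fun _ => True) := by
      intro B0 C0 ε0 hε0
      obtain ⟨A, hA3, hA⟩ := Pool.Agent.Helper44K9.PT.full hall
        (Pool.Agent.Helper24K9.PT.most htw hsol Pool.Agent.Helper24K9.PT.nl) Pool.Agent.Helper24K9.PT.ds g g' hres
        B0 C0 ε0 hε0
      exact ⟨A, hA3, fun H hH x hx hxB h _ hh => hA H hH x hx hxB h hh⟩
    obtain ⟨A, hA⟩ := of_full g g' _ hF B C ε hε
    exact ⟨A, fun H hH x hx hxB h hh _ => hA H hH x hx hxB h hh trivial⟩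
  by_cases hlin : g 2 = 0 ∧ g' 2 = 0 ∧ g 1 * g' 0 - g' 1 * g 0 ≠ 0 ∧ a₀ ≠ 0
  swap
  · refine ⟨0, fun H _ x _ _ h _ hal => ?_⟩
    rcases hal with hal | ⟨h1, h2, h3, _, h5⟩
    · exact absurd hal hres
    · exact absurd ⟨h1, h2, h3, h5⟩ hlin
  obtain ⟨hg2, hg2', hc, ha⟩ := hlin
  -- the case of linear directions
  have key : ∀ g g' : Fin 3 → ℤ, g 2 = 0 → g' 2 = 0 → g 1 * g' 0 - g' 1 * g 0 ≠ 0 → g 1 ≠ 0 →
      Pool.Agent.Helper24K9.PT.S_FULLc g g' (fun h => h 2 = a₀) := by
    intro g g' h1 h2 h3 h4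
    apply Pool.Agent.Helper44K9.PT.fullc g g' (fun h => h 2 = a₀) hall
    · refine Or.inr ⟨?_, ?_, h3⟩
      · unfold Pool.Agent.Helper24K9.PL.cA; rw [h1, h2]; ring
      · unfold Pool.Agent.Helper24K9.PL.cB; rw [h1, h2]; ring
    · exact Pool.Agent.Helper24K9.PT.mostc g g' _ htw hsol (Pool.Agent.Helper30K9.PT.nl1 g g' a₀ h1 h2 h4 h3 ha)
    · exact Pool.Agent.Helper30K9.PT.ds1 g g' a₀ h1 h2 ha
  by_cases h1 : g 1 = 0
  · have h1' : g' 1 ≠ 0 := by
      intro h2
      apply hc
      rw [h1, h2]; ring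
    have hc' : g' 1 * g 0 - g 1 * g' 0 ≠ 0 := fun h2 => hc (by linarith)
    obtain ⟨A, hA⟩ := of_full g' g _ (key g' g hg2' hg2 hc' h1') B C ε hε
    refine ⟨A, fun H hH x hx hxB h hh hal => ?_⟩
    rcases hal with hal | ⟨_, _, _, h5, _⟩
    · exact absurd hal hres
    have k1 := hA H hH x hx hxB h hh h5
    rw [number_swap]
    have e : (fun q : ℤ × ℤ => ¬ Holds H x ε (member g g' h q.swap.1 q.swap.2)) =
        fun q : ℤ × ℤ => ¬ Holds H x ε (member g' g h q.1 q.2) := by
      funext q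
      have e2 : member g g' h q.swap.1 q.swap.2 = member g' g h q.1 q.2 := by
        funext i
        unfold member
        simp only [Prod.fst_swap, Prod.snd_swap]
        ring
      rw [e2]
    rw [e]
    exact k1
  · obtain ⟨A, hA⟩ := of_full g g' _ (key g g' hg2 hg2' hc h1) B C ε hε
    refine ⟨A, fun H hH x hx hxB h hh hal => ?_⟩
    rcases hal with hal | ⟨_, _, _, h5, _⟩
    · exact absurd hal hres
    exact hA H hH x hx hxB h hh h5

end Pool.Agent.Results.MP_a17b09_nt.EveryPlane
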