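import Pool.Agent.Helper2K9.FP.Full

/-!
# The first values beyond the root: Conjecture F for `a t² + b t - n`, for almost all `n`

Fix `a > 0` and `b`. For almost all `n` the first `y` values of `f(t) = a t² + b t - n` beyond its positive root contain the
number of primes which Conjecture F predicts, already for `y` a large multiple of `log n`, and for almost all admissible `n`
the least prime value of `f` is of the exact order `√n log n`.

From the starting files: the convergence of `C(a, b, c)` and a bound for its tail for almost all `n` (`Pool.Agent.R460.SC`,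
`Pool.Agent.W468`), and the theorems of Siegel and Walfisz, the prime number theorem and Mertens' theorem, through the
files `Pool.Agent.Helper82K9.PR` on random polynomials: if `M` is the largest `t ≥ 0` with `f(t) ≤ 0`, then
`f(M + t) = c₀ + c₁ t + a (t - 1)²` with `c₁ = 2 a (M + 1) + b`, `c₀ = f(M + 1) - c₁`, and `n ↦ (c₀, c₁)` is an injective map
of the `n ≤ N` into a box with at most a constant times `N` elements. Nothing is used besides Mathlib in the statement.
-/

set_option autoImplicit false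

namespace Pool.Agent.Results.MP_a17b09_nt.FirstPrimeValues

open Finset Filter Topology

/-- The polynomial `f(t) = a t² + b t - n`, so the polynomial of the triple `(a, b, c)` with `c = -n`. -/
def f (a b : ℤ) (n : ℕ) (t : ℤ) : ℤ := a * t ^ 2 + b * t - n

/-- The triple `(a, b, c)`, `a > 0`, is admissible. -/
def Admissible (a b c : ℤ) : Prop :=
  Int.gcd (Int.gcd a b : ℤ) c = 1 ∧ ¬ (Even (a + b) ∧ Even c) ∧ ¬ IsSquare (b ^ 2 - 4 * a * c)

/-- The largest integer `t ≥ 0` with `f(t) ≤ 0`. -/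
noncomputable def last (a b : ℤ) (n : ℕ) : ℕ := sSup {t : ℕ | f a b n t ≤ 0}

open Classical in
/-- The number of the integers `1 ≤ n ≤ N` with the property `F`. -/
noncomputable def number (N : ℕ) (F : ℕ → Prop) : ℝ := (((Icc 1 N).filter F).card : ℝ)

/-- The number of the primes among the first `y` values of `f` beyond the root, `f(last + 1)`, ..., `f(last + y)`. -/
noncomputable def count (a b : ℤ) (n y : ℕ) : ℕ :=
  ((Icc 1 y).filter (fun t : ℕ => (f a b n ((last a b n : ℤ) + t)).toNat.Prime)).card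

/-- The products which define `C(a, b, c)`, over the primes `p ≤ z` (`jacobiSym Δ p` is the Legendre symbol). -/
noncomputable def partialC (a b c : ℤ) (z : ℕ) : ℝ :=
  (if Odd (a + b) then 1 / 2 else 1) *
    (∏ p ∈ (Icc 3 z).filter (fun p : ℕ => p.Prime ∧ (p : ℤ) ∣ a ∧ (p : ℤ) ∣ b), (p : ℝ) / (p - 1)) *
    ∏ p ∈ (Icc 3 z).filter (fun p : ℕ => p.Prime ∧ ¬ (p : ℤ) ∣ a),
      (1 - (jacobiSym (b ^ 2 - 4 * a * c) p : ℝ) / (p - 1))

/-- `C = C(a, b, c)`: the products over the primes, in increasing order, converge to `C`. -/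
def IsC (a b c : ℤ) (C : ℝ) : Prop := Tendsto (partialC a b c) atTop (𝓝 C)

/-- The primes which are values of `f` at integers. -/
def PrimeValues (a b : ℤ) (n : ℕ) : Set ℕ := {q | q.Prime ∧ ∃ t : ℤ, f a b n t = q}

lemma number_le (N : ℕ) (F G : ℕ → Prop) [DecidablePred G] (h : ∀ n, F n → G n) :
    number N F ≤ (((Icc 1 N).filter G).card : ℝ) := by
  classical
  unfold number
  exact Nat.cast_le.2 (card_le_card fun n hn => mem_filter.2 ⟨(mem_filter.1 hn).1, h n (mem_filter.1 hn).2⟩)

lemma number_or (N : ℕ) (F G H : ℕ → Prop) (h : ∀ n ∈ Icc 1 N, F n → G n ∨ H n) : number N F ≤ number N G + number N H := by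
  classical
  unfold number
  rw [← Nat.cast_add]
  apply Nat.cast_le.2
  refine (card_le_card ?_).trans (card_union_le _ _)
  intro n hn
  rw [mem_filter] at hn
  rw [mem_union, mem_filter, mem_filter]
  rcases h n hn.1 hn.2 with h1 | h1
  · exact Or.inl ⟨hn.1, h1⟩
  · exact Or.inr ⟨hn.1, h1⟩

lemma last_eq (a : ℕ) (b : ℤ) (ha : 0 < a) (n : ℕ) : last a b n = Pool.Agent.Helper2K9.FP.M a b n := by
  unfold last
  apply IsGreatest.csSup_eq
  constructor
  · have := Pool.Agent.Helper2K9.FP.M_le a b n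
    simp only [Set.mem_ofPred_eq, f]
    unfold Pool.Agent.Helper2K9.FP.g at this
    linarith
  · intro t ht
    by_contra hcon
    push Not at hcon
    have := Pool.Agent.Helper2K9.FP.M_lt a b ha n t hcon
    simp only [Set.mem_ofPred_eq, f] at ht
    unfold Pool.Agent.Helper2K9.FP.g at this
    linarith

lemma value_eq (a : ℕ) (b : ℤ) (ha : 0 < a) (n t : ℕ) :
    f a b n ((last a b n : ℤ) + t) = Pool.Agent.Helper2K9.FP.val a b n t := by
  rw [last_eq a b ha n]
  rfl

lemma count_eq (a : ℕ) (b : ℤ) (ha : 0 < a) (n y : ℕ) :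
    count a b n y = Pool.Agent.Helper2K9.FP.reps a b n y := by
  unfold count Pool.Agent.Helper2K9.FP.reps
  congr 1
  apply filter_congr
  intro t ht
  have h1 := mem_Icc.1 ht
  rw [value_eq a b ha n t]
  have h2 : 0 ≤ Pool.Agent.Helper2K9.FP.val a b n t := by
    have := Pool.Agent.Helper2K9.FP.M_lt a b ha n (Pool.Agent.Helper2K9.FP.M a b n + t) (by omega)
    unfold Pool.Agent.Helper2K9.FP.val
    push_cast at this
    linarith
  have h3 : (Pool.Agent.Helper2K9.FP.val a b n t).toNat = (Pool.Agent.Helper2K9.FP.val a b n t).natAbs := by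
    zify
    rw [Int.toNat_of_nonneg h2, abs_of_nonneg h2]
  rw [h3]

lemma roots_lt (a : ℕ) (b : ℤ) (n : ℕ) (h : Admissible a b (-n)) (p : ℕ) (hp : p.Prime) :
    Pool.Agent.Helper2K9.FP.roots a b n p < p := by
  refine lt_of_le_of_ne (Pool.Agent.Helper2K9.FP.roots_le_self a b n p) fun he => ?_
  have hall : ∀ m ∈ range p, (p : ℤ) ∣ Pool.Agent.Helper2K9.FP.g a b m - n := by
    unfold Pool.Agent.Helper2K9.FP.roots at he
    have h1 : (range p).filter (fun m : ℕ => (p : ℤ) ∣ Pool.Agent.Helper2K9.FP.g a b m - n) = range p := by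
      apply eq_of_subset_of_card_le (filter_subset _ _)
      rw [he, card_range]
    intro m hm
    rw [← h1] at hm
    exact (mem_filter.1 hm).2
  unfold Pool.Agent.Helper2K9.FP.g at hall
  have h0 := hall 0 (mem_range.2 hp.pos)
  have h1 := hall 1 (mem_range.2 hp.one_lt)
  have hn : (p : ℤ) ∣ n := by
    have : (p : ℤ) ∣ -(n : ℤ) := by simpa using h0
    exact (dvd_neg).1 this
  have hab : (p : ℤ) ∣ a + b := by
    have h2 := dvd_add h1 hn
    have h3 : (a : ℤ) * ((1 : ℕ) : ℤ) ^ 2 + b * ((1 : ℕ) : ℤ) - n + n = a + b := by push_cast; ring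
    rwa [h3] at h2
  rcases eq_or_ne p 2 with rfl | h2
  · apply h.2.1
    refine ⟨?_, ?_⟩
    · exact even_iff_two_dvd.2 hab
    · exact even_iff_two_dvd.2 ((dvd_neg).2 hn)
  · have h3 : 2 < p := lt_of_le_of_ne hp.two_le (Ne.symm h2)
    have h4 := hall 2 (mem_range.2 h3)
    have h5 : (p : ℤ) ∣ 2 * a := by
      have h6 := dvd_sub (dvd_add h4 hn) (hab.mul_left 2)
      have h7 : (a : ℤ) * ((2 : ℕ) : ℤ) ^ 2 + b * ((2 : ℕ) : ℤ) - n + n - 2 * (a + b) = 2 * a := by push_cast; ring
      rwa [h7] at h6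
    have h6 : (p : ℤ) ∣ a := by
      rcases (Nat.prime_iff_prime_int.1 hp).dvd_or_dvd h5 with h7 | h7
      · exfalso
        have h8 : p ∣ 2 := by exact_mod_cast h7
        have := Nat.le_of_dvd two_pos h8
        omega
      · exact h7
    have h7 : (p : ℤ) ∣ b := by
      have := dvd_sub hab h6
      simpa using this
    have h8 : (p : ℤ) ∣ ((Int.gcd a b : ℕ) : ℤ) := Int.dvd_coe_gcd h6 h7
    have h9 : (p : ℤ) ∣ ((Int.gcd (Int.gcd a b : ℤ) (-n) : ℕ) : ℤ) := Int.dvd_coe_gcd h8 ((dvd_neg).2 hn)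
    rw [h.1] at h9
    have h10 : p ∣ 1 := by exact_mod_cast h9
    exact hp.one_lt.ne' (Nat.dvd_one.1 h10)

/-- Let `a > 0` and `b` be integers, `f(t) = a t² + b t - n`. Let `B` and `ε > 0` be given. There are `c > 0`, `C₁ > 0` and
`A` such that for all `N ≥ A` and all `x` with `A log N ≤ x ≤ (log N) ^ B` the following holds for all `n ≤ N` with at most
`ε N` exceptions: if the triple `(a, b, -n)` is admissible, then

* the product `C = C(a, b, -n)` of Conjecture F converges and is positive, and for all `y ≤ x` the number of the primes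
  among the first `y` values of `f` beyond the root, times `(log N) / 2`, is `2 C y` up to an error `ε x`, and
* `f` has prime values at integers, and the least of them, `q`, satisfies `c √n log n ≤ q ≤ C₁ √n log n`. -/
theorem result (a b : ℤ) (ha : 0 < a) (B : ℕ) (ε : ℝ) (hε : 0 < ε) : ∃ c C₁ : ℝ, 0 < c ∧ 0 < C₁ ∧ ∃ A : ℕ,
    ∀ N : ℕ, A ≤ N → ∀ x : ℕ, A * Real.log N ≤ x → (x : ℝ) ≤ Real.log N ^ B →
      number N (fun n => Admissible a b (-n) ∧
        ¬ ((∃ C : ℝ, 0 < C ∧ IsC a b (-n) C ∧ ∀ y ≤ x, |count a b n y * (Real.log N / 2) - 2 * C * y| ≤ ε * x) ∧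
          ∃ q : ℕ, IsLeast (PrimeValues a b n) q ∧ c * (√n * Real.log n) ≤ q ∧ q ≤ C₁ * (√n * Real.log n))) ≤ ε * N := by
  classical
  obtain ⟨a, rfl⟩ := Int.eq_ofNat_of_zero_le ha.le
  have ha' : 0 < a := by exact_mod_cast ha
  obtain ⟨A, g⟩ := Pool.Agent.Helper2K9.FP.partF a b ha' B (ε / 2) (by positivity)
  obtain ⟨c, C₁, hc, hC, N₀, h⟩ := Pool.Agent.Helper2K9.FP.partC a b ha' (ε / 2) (by positivity)
  refine ⟨c, C₁, hc, hC, A + N₀, fun N hN x hx1 hx2 => ?_⟩
  have hlog0 : 0 ≤ Real.log N := Real.log_natCast_nonneg N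
  have hx1' : (A : ℝ) * Real.log N ≤ x := by
    refine le_trans (mul_le_mul_of_nonneg_right ?_ hlog0) hx1
    exact_mod_cast (by omega : A ≤ A + N₀)
  have k1 := g N (by omega) x hx1' hx2
  have k2 := h N (by omega)
  refine (number_or N _ (fun n : ℕ => (∀ p : ℕ, p.Prime → Pool.Agent.Helper2K9.FP.roots a b n p < p) ∧
      ¬ ∃ C : ℝ, 0 < C ∧ Tendsto (fun z : ℕ => Pool.Agent.R460.SC.cf a b (-n) z) atTop (𝓝 C) ∧
        ∀ y ≤ x, |Pool.Agent.Helper2K9.FP.reps a b n y * (Real.log N / 2) - 2 * C * y| ≤ ε / 2 * x)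
    (fun n : ℕ => (∀ p : ℕ, p.Prime → Pool.Agent.Helper2K9.FP.roots a b n p < p) ∧
      ¬ ∃ q : ℕ, IsLeast (Pool.Agent.Helper2K9.FP.PV a b n) q ∧ c * (√n * Real.log n) ≤ q ∧
      q ≤ C₁ * (√n * Real.log n)) (fun n hn1 hn => ?_)).trans ?_
  · have hr : ∀ p : ℕ, p.Prime → Pool.Agent.Helper2K9.FP.roots a b n p < p := fun p hp => roots_lt a b n hn.1 p hp
    by_contra hcon
    push Not at hcon
    apply hn.2
    obtain ⟨C, hC0, hC2, h1⟩ := hcon.1 hr
    refine ⟨⟨C, hC0, hC2, fun y hy => ?_⟩, hcon.2 hr⟩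
    rw [count_eq a b ha' n y]
    refine (h1 y hy).trans ?_
    apply mul_le_mul_of_nonneg_right _ (Nat.cast_nonneg _)
    linarith
  · calc _ ≤ ε / 2 * N + ε / 2 * N := add_le_add ((number_le N _ _ (fun n hn => hn)).trans k1)
          ((number_le N _ _ (fun n hn => hn)).trans k2)
      _ = ε * N := by ring

end Pool.Agent.Results.MP_a17b09_nt.FirstPrimeValues
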